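import Pool.Agent.Q7.PD.Final

/-!
# All parameter arrays with prescribed `θ*_i` and `φ_i ϕ_i`
-/

namespace Pool.Agent.Results.MP_87d664_al.AllArrays

open Q7.PD

/-- Let `(θ_i; θ*_i; φ_i; ϕ_i)` be a parameter array of diameter `d` over a field `K`. All parameter
arrays `(θ'_i; θ*_i; φ'_i; ϕ'_i)` with `φ'_i ϕ'_i = φ_i ϕ_i` are determined, in the five cases
`d = 0`, `d = 1`, `d = 2`, `d ≥ 3` and `ϑ_2 ≠ 0`, and `d ≥ 3` and `ϑ_2 = 0`. -/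
theorem result {K : Type*} [Field K] (d : ℕ) (θ θs φ ϕ : ℕ → K) (h : IsPA d θ θs φ ϕ) :
    (d = 0 → ∀ θ' φ' ϕ' : ℕ → K, Asked d θs φ ϕ θ' φ' ϕ') ∧
    (d = 1 → ∀ θ' φ' ϕ' : ℕ → K, Asked d θs φ ϕ θ' φ' ϕ' ↔
      ∃ x : K, x ≠ 0 ∧ x ^ 2 ≠ φ 1 * ϕ 1 ∧ φ' 1 = x ∧ ϕ' 1 = φ 1 * ϕ 1 / x ∧
        θ' 1 = θ' 0 - (x - φ 1 * ϕ 1 / x) / (θs 1 - θs 0)) ∧
    (d = 2 → ∀ a b m : K, a = θ 1 - θ 0 → b = θ 1 - θ 2 → m = ϕ 1 - a * θs 1 - b * θs 0 →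
      SeqA 2 θs (θ 0 - b) a b m θ φ ϕ ∧ ∀ θ' φ' ϕ' : ℕ → K, Asked d θs φ ϕ θ' φ' ϕ' ↔
      Distinct 2 θ' ∧ ∃ c' a' b' m' u u' : K, SeqA 2 θs c' a' b' m' θ' φ' ϕ' ∧
        u = m + (a + b) * θs 1 ∧ u' = m' + (a' + b') * θs 1 ∧
        u' * (u' * (2 * θs 1 - θs 0 - θs 2) + (a' + b') * ((θs 1 - θs 0) * (θs 2 - θs 1)))
          = u * (u * (2 * θs 1 - θs 0 - θs 2) + (a + b) * ((θs 1 - θs 0) * (θs 2 - θs 1))) ∧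
        a' * b' = a * b + (u ^ 2 - u' ^ 2) / (θs 1 - θs 0) ^ 2
          - (u * (a + b) - u' * (a' + b')) / (θs 1 - θs 0)) ∧
    (3 ≤ d → vt d θs 2 ≠ 0 → ∀ β a b m : K, β = (θs 0 - θs 3) / (θs 1 - θs 2) - 1 →
      a = (θ (d - 1) - θ 0) / vt d θs 2 → b = (θ 1 - θ d) / vt d θs 2 →
      m = ϕ 1 - a * θs 1 - b * θs 0 →
      SeqA d θs (θ 0 - b) a b m θ φ ϕ ∧ ∀ θ' φ' ϕ' : ℕ → K, Asked d θs φ ϕ θ' φ' ϕ' ↔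
      Distinct d θ' ∧ ∃ c' a' b' m' : K, SeqA d θs c' a' b' m' θ' φ' ϕ' ∧
        (Same a b m a' b' m' ∨ Extra β (gam β θs) (rho β θs) a b m a' b' m')) ∧
    (3 ≤ d → vt d θs 2 ≠ 0 → ∀ β a b m : K, gam β θs ^ 2 ≠ (β - 2) * rho β θs →
      ∀ a₁ b₁ m₁ a₂ b₂ m₂ : K, Extra β (gam β θs) (rho β θs) a b m a₁ b₁ m₁ →
        Extra β (gam β θs) (rho β θs) a b m a₂ b₂ m₂ → Same a₁ b₁ m₁ a₂ b₂ m₂) ∧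
    (3 ≤ d → vt d θs 2 = 0 → ∃ e, 1 ≤ e ∧ d = 2 * e + 1 ∧
      SeqB e θs (θ 0) (θ 2 - θ 0) (ϕ 1) (φ 1) θ φ ϕ ∧ ∀ θ' φ' ϕ' : ℕ → K,
      Asked d θs φ ϕ θ' φ' ϕ' ↔ Distinct d θ' ∧ ∃ c' ε x y : K, (ε = 1 ∨ ε = -1) ∧
        SeqB e θs c' (ε * (θ 2 - θ 0)) (ε * x) (ε * y) θ' φ' ϕ' ∧ x * y = ϕ 1 * φ 1 ∧
        (x + y = ϕ 1 + φ 1 ∨
          x + y = -(ϕ 1 + φ 1) - (θ 2 - θ 0) * (θs 1 - θs 0) ^ 2 / (θs 2 - θs 0))) := by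
  refine ⟨?_, ?_, ?_, fun hd h2 β a b m hβ ha hb hm => three_case h hd h2 hβ ha hb hm,
    fun _ _ β a b m h0 a₁ b₁ m₁ a₂ b₂ m₂ h1 h2 => extra_unique h0 h1 h2,
    fun hd h2 => odd_case h hd h2⟩
  · rintro rfl θ' φ' ϕ'
    exact zero_case _ _ _ _ _ _
  · rintro rfl θ' φ' ϕ'
    exact one_case h θ' φ' ϕ'
  · rintro rfl a b m ha hb hm
    exact two_case h ha hb hm

end Pool.Agent.Results.MP_87d664_al.AllArrays
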